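import Pool.Agent.Y644.JW.Stm

/-!
# JW-TUT: perfect matching of the blow-up by Tutte's theorem
-/

set_option autoImplicit false

namespace Pool.Agent.Y344.JW.Tut

open Pool.Agent.Y644.JW

variable {V : Type}

/-- the blow-up -/
def bl (G : SimpleGraph V) (f : V → ℕ) : SimpleGraph (Σ v : V, Fin (f v)) where
  Adj x y := x ≠ y ∧ (x.1 = y.1 ∨ G.Adj x.1 y.1)
  symm := ⟨fun x y h => ⟨h.1.symm, h.2.elim (fun h => Or.inl h.symm) fun h => Or.inr h.symm⟩⟩
  loopless := ⟨fun _ h => h.1 rfl⟩

theorem bl_adj {G : SimpleGraph V} {f : V → ℕ} {x y : Σ v : V, Fin (f v)} :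
    (bl G f).Adj x y ↔ x ≠ y ∧ (x.1 = y.1 ∨ G.Adj x.1 y.1) := Iff.rfl

/-- the graph `H - u` -/
abbrev del (G : SimpleGraph V) (f : V → ℕ) (u : Set (Σ v : V, Fin (f v))) :
    SimpleGraph ((⊤ : (bl G f).Subgraph).deleteVerts u).verts :=
  ((⊤ : (bl G f).Subgraph).deleteVerts u).coe

theorem mem_del {G : SimpleGraph V} {f : V → ℕ} {u : Set (Σ v : V, Fin (f v))}
    {x : Σ v : V, Fin (f v)} :
    x ∈ ((⊤ : (bl G f).Subgraph).deleteVerts u).verts ↔ x ∉ u := by
  simp

theorem del_adj {G : SimpleGraph V} {f : V → ℕ} {u : Set (Σ v : V, Fin (f v))}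
    {x y : ((⊤ : (bl G f).Subgraph).deleteVerts u).verts} :
    (del G f u).Adj x y ↔ (bl G f).Adj x.1 y.1 := by
  have hx := mem_del.1 x.2
  have hy := mem_del.1 y.2
  simp [SimpleGraph.Subgraph.coe_adj, SimpleGraph.Subgraph.deleteVerts_adj, hx, hy]

theorem reach {G : SimpleGraph V} {f : V → ℕ} {u : Set (Σ v : V, Fin (f v))} {S : Set V}
    (hS : ∀ v, v ∉ S → ∃ i : Fin (f v), (⟨v, i⟩ : Σ v : V, Fin (f v)) ∉ u)
    {a b : (Sᶜ : Set V)} (w : (G.induce Sᶜ).Walk a b) :
    ∀ x y : ((⊤ : (bl G f).Subgraph).deleteVerts u).verts, x.1.1 = a.1 → y.1.1 = b.1 →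
      (del G f u).Reachable x y := by
  induction w with
  | nil =>
    intro x y hx hy
    by_cases h : x = y
    · rw [h]
    · refine SimpleGraph.Adj.reachable ?_
      rw [del_adj, bl_adj]
      exact ⟨fun h' => h (Subtype.ext h'), Or.inl (hx.trans hy.symm)⟩
  | @cons a c b hadj w ih =>
    intro x y hx hy
    obtain ⟨i, hi⟩ := hS c.1 c.2
    let z : ((⊤ : (bl G f).Subgraph).deleteVerts u).verts := ⟨⟨c.1, i⟩, mem_del.2 hi⟩
    have h1 : G.Adj a.1 c.1 := hadj
    have h2 : (del G f u).Adj x z := by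
      rw [del_adj, bl_adj]
      have h3 : G.Adj x.1.1 c.1 := by rw [hx]; exact h1
      refine ⟨fun h' => ?_, Or.inr h3⟩
      have h4 : x.1.1 = c.1 := congrArg Sigma.fst h'
      rw [h4] at h3
      exact h3.ne rfl
    exact h2.reachable.trans (ih z y rfl hy)

theorem card_comp [Fintype V] (G : SimpleGraph V) (f : V → ℕ) (u : Set (Σ v : V, Fin (f v)))
    (S : Finset V) (hS : ∀ v, v ∉ S → ∃ i : Fin (f v), (⟨v, i⟩ : Σ v : V, Fin (f v)) ∉ u)
    (hS' : ∀ v i, (⟨v, i⟩ : Σ v : V, Fin (f v)) ∉ u → v ∉ S) :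
    Nat.card (del G f u).ConnectedComponent ≤ om G S := by
  classical
  unfold om
  have hrep : ∀ C : (del G f u).ConnectedComponent, ∃ x, (del G f u).connectedComponentMk x = C :=
    fun C => C.exists_rep
  choose rep hr using hrep
  have hm : ∀ x : ((⊤ : (bl G f).Subgraph).deleteVerts u).verts, x.1.1 ∈ ((S : Set V)ᶜ) := by
    intro x hx
    exact hS' x.1.1 x.1.2 (mem_del.1 x.2) (Finset.mem_coe.1 hx)
  refine Nat.card_le_card_of_injective (fun C =>
    (G.induce ((S : Set V)ᶜ)).connectedComponentMk ⟨(rep C).1.1, hm _⟩) ?_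
  intro C C' h
  have h1 := SimpleGraph.ConnectedComponent.exact h
  obtain ⟨w⟩ := h1
  have h2 := reach (G := G) (f := f) (u := u) (S := (S : Set V))
    (fun v hv => hS v (fun h => hv (Finset.mem_coe.2 h))) w (rep C) (rep C') rfl rfl
  rw [← hr C, ← hr C']
  exact SimpleGraph.ConnectedComponent.sound h2

theorem tut : S_TUT := by
  intro V _ G f hG hev htough
  classical
  have key : ∀ u, ¬ (bl G f).IsTutteViolator u := by
    intro u
    unfold SimpleGraph.IsTutteViolator
    rw [not_lt]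
    set S : Finset V := Finset.univ.filter fun v => ∀ i : Fin (f v), (⟨v, i⟩ : Σ v : V, Fin (f v)) ∈ u
      with hSdef
    have hS1 : ∀ v, v ∉ S → ∃ i : Fin (f v), (⟨v, i⟩ : Σ v : V, Fin (f v)) ∉ u := by
      intro v hv
      by_contra h
      push Not at h
      exact hv (Finset.mem_filter.2 ⟨Finset.mem_univ _, h⟩)
    have hS2 : ∀ v i, (⟨v, i⟩ : Σ v : V, Fin (f v)) ∉ u → v ∉ S := by
      intro v i h hv
      exact h ((Finset.mem_filter.1 hv).2 i)
    have hc := card_comp G f u S hS1 hS2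
    have hodd : (del G f u).oddComponents.ncard ≤ Nat.card (del G f u).ConnectedComponent := by
      rw [← Set.ncard_univ]
      exact Set.ncard_le_ncard (Set.subset_univ _) (Set.toFinite _)
    change (del G f u).oddComponents.ncard ≤ u.ncard
    by_cases h2 : 2 ≤ om G S
    · refine le_trans hodd (le_trans hc (le_trans (htough S h2) ?_))
      have e : (S.sigma fun v => (Finset.univ : Finset (Fin (f v)))).card = ∑ v ∈ S, f v := by
        rw [Finset.card_sigma]
        simp
      rw [← e, ← Set.ncard_coe_finset]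
      refine Set.ncard_le_ncard ?_ (Set.toFinite _)
      intro x hx
      have hx1 : x.1 ∈ S := (Finset.mem_sigma.1 (Finset.mem_coe.1 hx)).1
      exact (Finset.mem_filter.1 hx1).2 x.2
    · have h3 : (del G f u).oddComponents.ncard ≤ 1 := by omega
      by_cases hu : u = ∅
      · have h4 := SimpleGraph.odd_ncard_oddComponents (del G f u)
        have h5 : Nat.card ((⊤ : (bl G f).Subgraph).deleteVerts u).verts = ∑ v, f v := by
          have h6 : ((⊤ : (bl G f).Subgraph).deleteVerts u).verts = Set.univ := by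
            ext x
            simp [hu]
          rw [h6, Nat.card_univ, Nat.card_eq_fintype_card, Fintype.card_sigma]
          simp
        rw [h5] at h4
        have h7 : ¬ Odd (del G f u).oddComponents.ncard := fun h =>
          (Nat.not_odd_iff_even.2 hev) (h4.1 h)
        rw [Nat.not_odd_iff_even] at h7
        obtain ⟨m, hm⟩ := h7
        have h8 : (del G f u).oddComponents.ncard = 0 := by omega
        rw [h8]
        exact Nat.zero_le _
      · have h9 : 1 ≤ u.ncard := by
          rw [Nat.one_le_iff_ne_zero]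
          intro h
          rw [Set.ncard_eq_zero (Set.toFinite _)] at h
          exact hu h
        omega
  obtain ⟨M, hM⟩ := SimpleGraph.tutte.2 key
  rw [SimpleGraph.Subgraph.isPerfectMatching_iff] at hM
  choose μ hμ hμ' using hM
  refine ⟨μ, fun x => ?_, fun x h => ?_, fun x => ?_⟩
  · exact (hμ' (μ x) x (hμ x).symm).symm
  · have h1 : M.Adj x (μ x) := hμ x
    rw [h] at h1
    exact h1.ne rfl
  · have h1 : (bl G f).Adj x (μ x) := (hμ x).adj_sub
    rcases h1.2 with h | h
    · exact Or.inl h.symm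
    · exact Or.inr h

end Pool.Agent.Y344.JW.Tut
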